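import Pool.Agent.helper58.FI.SpecC

/-!
# Project fi (MP_baa4d7_al), block F: FNR, recursion for normal chains by the second term
-/

set_option autoImplicit false

namespace Pool.Agent.FI

open Pool.Agent.helper58.DC Pool.Agent.DI Pool.Agent.GR Pool.Agent.OB Pool.Agent.DR

section

variable {Γ : Type} [Group Γ]

open Classical in
theorem FNR_nrm_insert (P : Subgroup Γ) (C : Finset (Subgroup Γ)) :
    nrm (insert P C) = nz P ⊓ nrm C := by
  unfold nrm
  exact Finset.iInf_insert P C _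

theorem FNR_nrm_single (P : Subgroup Γ) : nrm ({P} : Finset (Subgroup Γ)) = nz P := by
  unfold nrm
  exact Finset.iInf_singleton P _

theorem FNR_single {p : ℕ} {L P : Subgroup Γ} (hP : IsPGroup p P) (hL : P ≤ L) :
    NCh p L P {P} := by
  refine ⟨⟨?_, Finset.mem_singleton_self P, ?_, ?_, ?_⟩, ?_⟩
  · rw [Finset.coe_singleton]
    exact Set.subsingleton_singleton.isChain
  · intro Q hQ
    rw [Finset.mem_singleton.1 hQ]
  · intro Q hQ
    rwa [Finset.mem_singleton.1 hQ]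
  · intro Q hQ
    rwa [Finset.mem_singleton.1 hQ]
  · intro Q hQ R hR _
    rw [Finset.mem_singleton.1 hQ, Finset.mem_singleton.1 hR]
    exact Subgroup.le_normalizer

open Classical in
theorem FNR_insert {p : ℕ} {L P P₁ : Subgroup Γ} (hP : IsPGroup p P) (hL : P ≤ L) (h1 : P < P₁)
    {C : Finset (Subgroup Γ)} (hC : NCh p (L ⊓ nz P) P₁ C) : NCh p L P (insert P C) := by
  have hle : ∀ Q ∈ C, P ≤ Q := fun Q hQ => h1.le.trans (hC.ch.bot Q hQ)
  refine ⟨⟨?_, Finset.mem_insert_self P C, ?_, ?_, ?_⟩, ?_⟩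
  · rw [Finset.coe_insert]
    exact hC.ch.chain.insert fun Q hQ _ => Or.inl (hle Q hQ)
  · intro Q hQ
    rcases Finset.mem_insert.1 hQ with h | h
    · rw [h]
    · exact hle Q h
  · intro Q hQ
    rcases Finset.mem_insert.1 hQ with h | h
    · rwa [h]
    · exact (hC.ch.le Q h).trans inf_le_left
  · intro Q hQ
    rcases Finset.mem_insert.1 hQ with h | h
    · rwa [h]
    · exact hC.ch.pg Q h
  · intro Q hQ R hR hQR
    rcases Finset.mem_insert.1 hQ with h | h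
    · rw [h]
      rcases Finset.mem_insert.1 hR with h' | h'
      · rw [h']
        exact Subgroup.le_normalizer
      · exact (hC.ch.le R h').trans inf_le_right
    · rcases Finset.mem_insert.1 hR with h' | h'
      · rw [h'] at hQR
        exact absurd ((hC.ch.bot Q h).trans hQR) (not_le_of_gt h1)
      · exact hC.nm Q h R h' hQR

theorem FNR_notMem {p : ℕ} {L P P₁ : Subgroup Γ} (h1 : P < P₁)
    {C : Finset (Subgroup Γ)} (hC : NCh p L P₁ C) : P ∉ C := fun h =>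
  absurd (hC.ch.bot P h) (not_le_of_gt h1)

open Classical in
theorem FNR_least {C : Finset (Subgroup Γ)} (hC : IsChain (· ≤ ·) (C : Set (Subgroup Γ)))
    (hne : C.Nonempty) : ∃ P ∈ C, ∀ Q ∈ C, P ≤ Q := by
  obtain ⟨P, hP⟩ := C.exists_minimal hne
  refine ⟨P, hP.1, fun Q hQ => ?_⟩
  rcases hC.total hP.1 hQ with h | h
  · exact h
  · exact hP.2 hQ h

open Classical in
theorem FNR_erase {p : ℕ} {L P : Subgroup Γ} {C : Finset (Subgroup Γ)} (hC : NCh p L P C)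
    (hne : C ≠ {P}) :
    ∃ P₁, P < P₁ ∧ P₁ ≤ L ⊓ nz P ∧ IsPGroup p P₁ ∧ NCh p (L ⊓ nz P) P₁ (C.erase P) := by
  have hch : IsChain (· ≤ ·) ((C.erase P : Finset (Subgroup Γ)) : Set (Subgroup Γ)) := by
    refine hC.ch.chain.mono ?_
    exact_mod_cast Finset.erase_subset P C
  have hne2 : (C.erase P).Nonempty := by
    rw [Finset.nonempty_iff_ne_empty]
    intro h0
    have h3 := Finset.insert_erase hC.ch.mem
    rw [h0] at h3
    exact hne (by rw [← h3]; rfl)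
  obtain ⟨P₁, hP₁, hmin⟩ := FNR_least hch hne2
  obtain ⟨hne3, hP₁C⟩ := Finset.mem_erase.1 hP₁
  have hle : ∀ Q ∈ C, Q ≤ L ⊓ nz P := fun Q hQ =>
    le_inf (hC.ch.le Q hQ) (hC.nm P hC.ch.mem Q hQ (hC.ch.bot Q hQ))
  refine ⟨P₁, lt_of_le_of_ne (hC.ch.bot P₁ hP₁C) (Ne.symm hne3), hle P₁ hP₁C,
    hC.ch.pg P₁ hP₁C, ⟨hch, hP₁, hmin, ?_, ?_⟩, ?_⟩
  · exact fun Q hQ => hle Q (Finset.mem_of_mem_erase hQ)
  · exact fun Q hQ => hC.ch.pg Q (Finset.mem_of_mem_erase hQ)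
  · exact fun Q hQ R hR h =>
      hC.nm Q (Finset.mem_of_mem_erase hQ) R (Finset.mem_of_mem_erase hR) h

end

open Classical in
theorem FNR : FNR_stmt := by
  intro Γ _ _ p _ L P N g hP hL
  have hfin : ∀ S : Set (Finset (Subgroup Γ)), S.Finite := fun S => Set.toFinite S
  have hfin' : ∀ S : Set (Subgroup Γ), S.Finite := fun S => Set.toFinite S
  set F : Finset (Subgroup Γ) → ℤ := fun C => (-1) ^ (C.card + 1) * g (N ⊓ nrm C) with hF
  change ∑ᶠ C ∈ {C : Finset (Subgroup Γ) | NCh p L P C}, F C = _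
  set S : Set (Finset (Subgroup Γ)) := {C | NCh p L P C} with hS
  have hSmem : ({P} : Finset (Subgroup Γ)) ∈ S := FNR_single hP hL
  set A : Set (Finset (Subgroup Γ)) := S \ {{P}} with hA
  have hSA : S = insert {P} A := (Set.insert_sdiff_self_of_mem hSmem).symm
  have h1 : ∑ᶠ C ∈ S, F C = F {P} + ∑ᶠ C ∈ A, F C := by
    rw [hSA]
    refine finsum_mem_insert F ?_ (hfin A)
    intro h
    exact h.2 rfl
  set T : Set (Subgroup Γ) := {P₁ : Subgroup Γ | P < P₁ ∧ P₁ ≤ L ⊓ nz P ∧ IsPGroup p P₁} with hT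
  have h2 : ∑ᶠ C ∈ A, F C =
      ∑ᶠ C' ∈ ⋃ P₁ ∈ T, {C : Finset (Subgroup Γ) | NCh p (L ⊓ nz P) P₁ C},
        F (insert P C') := by
    symm
    refine finsum_mem_eq_of_bijOn (fun C => insert P C) ⟨?_, ?_, ?_⟩ (fun _ _ => rfl)
    · intro C hC
      obtain ⟨P₁, hP₁, hC⟩ := Set.mem_iUnion₂.1 hC
      refine ⟨FNR_insert hP hL hP₁.1 hC, ?_⟩
      intro h0
      have h3 : P₁ ∈ insert P C := Finset.mem_insert_of_mem hC.ch.mem
      have h0' : insert P C = {P} := h0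
      rw [h0', Finset.mem_singleton] at h3
      exact absurd h3 hP₁.1.ne'
    · intro C hC D hD hCD
      obtain ⟨P₁, hP₁, hC⟩ := Set.mem_iUnion₂.1 hC
      obtain ⟨P₂, hP₂, hD⟩ := Set.mem_iUnion₂.1 hD
      have h3 := congrArg (fun X => Finset.erase X P) hCD
      simp only at h3
      rwa [Finset.erase_insert (FNR_notMem hP₁.1 hC),
        Finset.erase_insert (FNR_notMem hP₂.1 hD)] at h3
    · intro C hC
      obtain ⟨P₁, h3, h4, h5, h6⟩ := FNR_erase (hC.1 : NCh p L P C) (fun h0 => hC.2 h0)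
      refine ⟨C.erase P, Set.mem_iUnion₂.2 ⟨P₁, ⟨h3, h4, h5⟩, h6⟩, ?_⟩
      exact Finset.insert_erase (hC.1 : NCh p L P C).ch.mem
  have h3 : ∑ᶠ C' ∈ ⋃ P₁ ∈ T, {C : Finset (Subgroup Γ) | NCh p (L ⊓ nz P) P₁ C},
      F (insert P C') =
      ∑ᶠ P₁ ∈ T, ∑ᶠ C' ∈ {C : Finset (Subgroup Γ) | NCh p (L ⊓ nz P) P₁ C},
        F (insert P C') := by
    refine finsum_mem_biUnion ?_ (hfin' T) (fun _ _ => hfin _)
    intro P₁ _ P₂ _ hne
    rw [Function.onFun, Set.disjoint_left]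
    intro C hC hD
    have hC' : NCh p (L ⊓ nz P) P₁ C := hC
    have hD' : NCh p (L ⊓ nz P) P₂ C := hD
    exact hne (le_antisymm (hC'.ch.bot _ hD'.ch.mem) (hD'.ch.bot _ hC'.ch.mem))
  have h4 : ∀ P₁ ∈ T, ∑ᶠ C' ∈ {C : Finset (Subgroup Γ) | NCh p (L ⊓ nz P) P₁ C},
      F (insert P C') = -∑ᶠ C ∈ {C : Finset (Subgroup Γ) | NCh p (L ⊓ nz P) P₁ C},
          (-1) ^ (C.card + 1) * g ((N ⊓ nz P) ⊓ nrm C) := by
    intro P₁ hP₁
    rw [← finsum_mem_neg_distrib _ (hfin _)]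
    refine finsum_mem_congr rfl fun C hC => ?_
    rw [hF]
    simp only
    rw [Finset.card_insert_of_notMem (FNR_notMem hP₁.1 hC), FNR_nrm_insert, inf_assoc]
    ring
  rw [h1, h2, h3, finsum_mem_congr rfl h4, finsum_mem_neg_distrib _ (hfin' T)]
  have h5 : F {P} = g (N ⊓ nz P) := by
    rw [hF]
    simp only
    rw [FNR_nrm_single, Finset.card_singleton]
    ring
  rw [h5, sub_eq_add_neg]

end Pool.Agent.FI
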